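import Mathlib
import Pool.Agent.TH953.RC.Shearer

/-!
# MP_cf191d_co: the chromatic-number bound for `H`-intersecting families is never tight
-/

namespace Pool.Agent.Results.MP_cf191d_co.NeverTight

open Finset

/-- A family `𝒢` of graphs on `[n]` is `H`-intersecting: any two members (possibly equal) have an
intersection containing a copy of `H`. -/
def HIntersecting {V : Type*} (H : SimpleGraph V) {n : ℕ} (𝒢 : Finset (SimpleGraph (Fin n))) :
    Prop :=
  ∀ G₁ ∈ 𝒢, ∀ G₂ ∈ 𝒢, H.IsContained (G₁ ⊓ G₂)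

/-- `M_H(n)`: the largest size of an `H`-intersecting family of graphs on `[n]`. -/
noncomputable def M {V : Type*} (H : SimpleGraph V) (n : ℕ) : ℕ :=
  sSup {k | ∃ 𝒢 : Finset (SimpleGraph (Fin n)), HIntersecting H 𝒢 ∧ 𝒢.card = k}

section sets

variable {α : Type} [DecidableEq α]

/-- A family of subsets of `s` closed under no complementary pair has at most `2^(|s|-1)`
members. -/
lemma inter_card {s : Finset α} {𝒜 : Finset (Finset α)} (h𝒜 : 𝒜 ⊆ s.powerset)
    (hI : ∀ A ∈ 𝒜, ∀ B ∈ 𝒜, (A ∩ B).Nonempty) : 2 * 𝒜.card ≤ 2 ^ s.card := by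
  classical
  have hinj : Set.InjOn (fun A => s \ A) (𝒜 : Set (Finset α)) := by
    intro A hA B hB hAB
    have hA' := mem_powerset.1 (h𝒜 hA)
    have hB' := mem_powerset.1 (h𝒜 hB)
    have : s \ (s \ A) = s \ (s \ B) := by
      simp only at hAB
      rw [hAB]
    rwa [Finset.sdiff_sdiff_eq_self hA', Finset.sdiff_sdiff_eq_self hB'] at this
  have hd : Disjoint 𝒜 (𝒜.image (fun A => s \ A)) := by
    rw [disjoint_left]
    intro A hA hA'
    obtain ⟨B, hB, rfl⟩ := mem_image.1 hA'
    obtain ⟨z, hz⟩ := hI _ hA _ hB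
    rw [mem_inter, mem_sdiff] at hz
    exact hz.1.2 hz.2
  have h1 : (𝒜 ∪ 𝒜.image (fun A => s \ A)).card ≤ 2 ^ s.card := by
    rw [← card_powerset]
    apply card_le_card
    apply union_subset h𝒜
    intro A hA
    obtain ⟨B, -, rfl⟩ := mem_image.1 hA
    exact mem_powerset.2 sdiff_subset
  rw [card_union_of_disjoint hd, card_image_of_injOn hinj] at h1
  omega

/-- A family of subsets of `s` any two of which share two elements has fewer than `2^(|s|-1)`
members. -/
lemma two_inter_card {s : Finset α} {𝒜 : Finset (Finset α)} (h𝒜 : 𝒜 ⊆ s.powerset)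
    (hI : ∀ A ∈ 𝒜, ∀ B ∈ 𝒜, 2 ≤ (A ∩ B).card) (hne : 𝒜.Nonempty) :
    2 * 𝒜.card < 2 ^ s.card := by
  classical
  have hI1 : ∀ A ∈ 𝒜, ∀ B ∈ 𝒜, (A ∩ B).Nonempty := fun A hA B hB =>
    card_pos.1 (by have := hI A hA B hB; omega)
  refine lt_of_le_of_ne (inter_card h𝒜 hI1) ?_
  intro heq
  -- exactly one of each complementary pair
  have hone : ∀ A ⊆ s, A ∉ 𝒜 → s \ A ∈ 𝒜 := by
    intro A hA hA'
    by_contra hcon
    -- adding `A` would contradict the bound: consider the pair
    have hinj : Set.InjOn (fun A => s \ A) (𝒜 : Set (Finset α)) := by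
      intro B hB C hC hBC
      have hB' := mem_powerset.1 (h𝒜 hB)
      have hC' := mem_powerset.1 (h𝒜 hC)
      have : s \ (s \ B) = s \ (s \ C) := by
        simp only at hBC
        rw [hBC]
      rwa [Finset.sdiff_sdiff_eq_self hB', Finset.sdiff_sdiff_eq_self hC'] at this
    have hd : Disjoint 𝒜 (𝒜.image (fun A => s \ A)) := by
      rw [disjoint_left]
      intro B hB hB'
      obtain ⟨C, hC, rfl⟩ := mem_image.1 hB'
      obtain ⟨z, hz⟩ := hI1 _ hB _ hC
      rw [mem_inter, mem_sdiff] at hz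
      exact hz.1.2 hz.2
    have hsub : 𝒜 ∪ 𝒜.image (fun A => s \ A) ⊆ s.powerset.erase A := by
      intro B hB
      rw [mem_erase]
      rcases mem_union.1 hB with hB | hB
      · exact ⟨fun h => hA' (h ▸ hB), h𝒜 hB⟩
      · obtain ⟨C, hC, rfl⟩ := mem_image.1 hB
        refine ⟨?_, mem_powerset.2 sdiff_subset⟩
        intro h
        apply hcon
        rw [← h, Finset.sdiff_sdiff_eq_self (mem_powerset.1 (h𝒜 hC))]
        exact hC
    have h1 := card_le_card hsub
    rw [card_union_of_disjoint hd, card_image_of_injOn hinj,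
      card_erase_of_mem (mem_powerset.2 hA), card_powerset] at h1
    have : 0 < 2 ^ s.card := by positivity
    omega
  obtain ⟨A, hA, hmin⟩ := exists_min_image 𝒜 card hne
  have hAs := mem_powerset.1 (h𝒜 hA)
  obtain ⟨e, he⟩ : A.Nonempty := by
    have := hI A hA A hA
    rw [inter_self] at this
    exact card_pos.1 (by omega)
  have h1 : A.erase e ∉ 𝒜 := by
    intro h
    have := hmin _ h
    have := card_erase_lt_of_mem he
    omega
  have h2 := hone _ ((erase_subset _ _).trans hAs) h1
  have h3 := hI A hA _ h2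
  have h4 : A ∩ (s \ A.erase e) ⊆ {e} := by
    intro z hz
    rw [mem_inter, mem_sdiff, mem_erase] at hz
    rw [mem_singleton]
    by_contra hne
    exact hz.2.2 ⟨hne, hz.1⟩
  have := card_le_card h4
  rw [card_singleton] at this
  omega

end sets

section graphs

variable {n : ℕ}

open Classical in
/-- The edge set of a graph on `[n]`, as a finite set. -/
noncomputable def ed (G : SimpleGraph (Fin n)) : Finset (Sym2 (Fin n)) := G.edgeFinset

lemma mem_ed {G : SimpleGraph (Fin n)} {e : Sym2 (Fin n)} : e ∈ ed G ↔ e ∈ G.edgeSet := by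
  classical
  unfold ed; simp

lemma ed_inj : Function.Injective (ed : SimpleGraph (Fin n) → Finset (Sym2 (Fin n))) := by
  intro G G' h
  apply SimpleGraph.edgeSet_injective
  ext e
  rw [← mem_ed, ← mem_ed, h]

lemma card_top : (ed (⊤ : SimpleGraph (Fin n))).card = n.choose 2 := by
  have h : ed (⊤ : SimpleGraph (Fin n)) = (⊤ : SimpleGraph (Fin n)).edgeFinset := by
    ext e
    rw [mem_ed, SimpleGraph.mem_edgeFinset]
  rw [h]
  have := SimpleGraph.card_edgeFinset_top_eq_card_choose_two (V := Fin n)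
  rw [Fintype.card_fin] at this
  exact this

lemma ed_subset (G : SimpleGraph (Fin n)) : ed G ⊆ ed (⊤ : SimpleGraph (Fin n)) := by
  intro e he
  rw [mem_ed] at he ⊢
  exact SimpleGraph.edgeSet_mono le_top he

lemma ed_inf (G G' : SimpleGraph (Fin n)) : ed (G ⊓ G') = ed G ∩ ed G' := by
  ext e
  rw [mem_inter, mem_ed, mem_ed, mem_ed, SimpleGraph.edgeSet_inf]
  rfl

/-- The edges that are monochromatic under a colouring. -/
def mono {r : ℕ} (c : Fin n → Fin r) : Finset (Sym2 (Fin n)) :=
  univ.filter (fun e => (e.map c).IsDiag)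

lemma mem_mono {r : ℕ} {c : Fin n → Fin r} {a b : Fin n} :
    s(a, b) ∈ mono c ↔ c a = c b := by
  simp [mono]

/-- A graph that is not `r`-colourable has a monochromatic edge. -/
lemma exists_mono {r : ℕ} {G : SimpleGraph (Fin n)} (h : ¬ G.Colorable r) (c : Fin n → Fin r) :
    (ed G ∩ mono c).Nonempty := by
  by_contra hcon
  apply h
  refine ⟨SimpleGraph.Coloring.mk c fun {a b} hab heq => hcon ⟨s(a, b), ?_⟩⟩
  rw [mem_inter, mem_ed, mem_mono]
  exact ⟨hab, heq⟩

lemma card_agree {r : ℕ} (T : Finset (Fin n)) (y : Fin n → Fin r) :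
    (univ.filter (fun x : Fin n → Fin r => ∀ j ∈ T, x j = y j)).card = r ^ (n - T.card) := by
  classical
  have h : univ.filter (fun x : Fin n → Fin r => ∀ j ∈ T, x j = y j)
      = Fintype.piFinset (fun j => if j ∈ T then {y j} else (univ : Finset (Fin r))) := by
    ext x
    simp only [mem_filter, mem_univ, true_and, Fintype.mem_piFinset]
    refine forall_congr' fun j => ?_
    split_ifs with h
    · simp [h]
    · simp [h]
  rw [h, Fintype.card_piFinset]
  have h2 : ∀ j : Fin n, (if j ∈ T then ({y j} : Finset (Fin r)) else univ).card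
      = if j ∈ T then 1 else r := by
    intro j
    split_ifs <;> simp
  simp only [h2]
  rw [prod_ite]
  simp only [prod_const_one, one_mul, prod_const]
  congr 1
  have : univ.filter (fun j => j ∉ T) = univ \ T := by
    ext j; simp
  rw [this, card_sdiff_of_subset (subset_univ _), card_univ, Fintype.card_fin]

/-- Every edge is monochromatic under exactly `r^(n-1)` colourings. -/
lemma card_mono {r : ℕ} {a b : Fin n} (hab : a ≠ b) :
    (univ.filter (fun c : Fin n → Fin r => s(a, b) ∈ mono c)).card = r ^ (n - 1) := by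
  classical
  have hn : 2 ≤ n := by
    have h1 := card_le_univ ({a, b} : Finset (Fin n))
    rw [card_pair hab, Fintype.card_fin] at h1
    exact h1
  have h1 : (univ.filter (fun c : Fin n → Fin r => s(a, b) ∈ mono c)).card
      = ∑ i : Fin r, (univ.filter (fun c : Fin n → Fin r => ∀ j ∈ ({a, b} : Finset (Fin n)),
        c j = (fun _ => i) j)).card := by
    rw [card_eq_sum_card_fiberwise (f := fun c : Fin n → Fin r => c a) (t := univ)
      (fun _ _ => mem_coe.2 (mem_univ _))]
    refine sum_congr rfl fun i _ => ?_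
    congr 1
    ext c
    simp only [mem_filter, mem_univ, true_and, mem_mono, mem_insert, mem_singleton,
      forall_eq_or_imp, forall_eq]
    constructor
    · rintro ⟨h1, h2⟩; exact ⟨h2, by rw [← h1, h2]⟩
    · rintro ⟨h1, h2⟩; exact ⟨by rw [h1, h2], h1⟩
  rw [h1]
  simp only [card_agree, card_pair hab, sum_const, card_univ, Fintype.card_fin, smul_eq_mul]
  rw [← pow_succ']
  congr 1
  omega

/-- The main estimate for `r ≥ 2`. -/
lemma main_bound {r : ℕ} (hr : 2 ≤ r) (𝒢 : Finset (SimpleGraph (Fin n))) (hne : 𝒢.Nonempty)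
    (h : ∀ G ∈ 𝒢, ∀ G' ∈ 𝒢, ¬ (G ⊓ G').Colorable r) :
    2 ^ r * 𝒢.card < 2 ^ (n.choose 2) := by
  classical
  obtain ⟨G0, hG0⟩ := hne
  have hcol : ¬ G0.Colorable r := by have := h G0 hG0 G0 hG0; rwa [inf_idem] at this
  -- `n > r`
  have hnr : r < n := by
    by_contra hcon
    push Not at hcon
    apply hcol
    have h1 : G0.Colorable n := by
      have := G0.colorable_of_fintype
      rwa [Fintype.card_fin] at this
    exact h1.mono hcon
  set s := ed (⊤ : SimpleGraph (Fin n)) with hs
  set S : (Fin n → Fin r) → Finset (Sym2 (Fin n)) := fun c => s ∩ mono c with hS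
  set 𝒜 : Finset (Finset (Sym2 (Fin n))) := 𝒢.image ed with h𝒜
  have hcard𝒜 : 𝒜.card = 𝒢.card := card_image_of_injective _ ed_inj
  set k := r ^ (n - 1) with hk
  have hk1 : 1 ≤ k := Nat.one_le_pow _ _ (by omega)
  have hcount : ∀ e ∈ s, (univ.filter (fun c : Fin n → Fin r => e ∈ S c)).card = k := by
    intro e he
    induction e using Sym2.ind with
    | _ a b =>
      have hab : a ≠ b := by
        rw [hs, mem_ed] at he
        simpa using he
      rw [hk, ← card_mono (r := r) hab]
      congr 1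
      ext c
      simp only [mem_filter, mem_univ, true_and, hS, mem_inter]
      exact ⟨fun h => h.2, fun h => ⟨he, h⟩⟩
  have hsub : 𝒜 ⊆ s.powerset := by
    intro A hA
    obtain ⟨G, -, rfl⟩ := mem_image.1 hA
    exact mem_powerset.2 (ed_subset G)
  have hshear := TH953.RC.shearer S k hk1 s hcount 𝒜 hsub
  -- each projection is intersecting
  have hproj : ∀ c : Fin n → Fin r,
      2 * (𝒜.image (fun A => A ∩ S c)).card ≤ 2 ^ (S c).card := by
    intro c
    apply inter_card
    · intro A hA
      obtain ⟨B, -, rfl⟩ := mem_image.1 hA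
      exact mem_powerset.2 inter_subset_right
    · intro A hA B hB
      obtain ⟨A', hA', rfl⟩ := mem_image.1 hA
      obtain ⟨B', hB', rfl⟩ := mem_image.1 hB
      obtain ⟨G, hG, rfl⟩ := mem_image.1 hA'
      obtain ⟨G', hG', rfl⟩ := mem_image.1 hB'
      obtain ⟨e, he⟩ := exists_mono (h G hG G' hG') c
      rw [ed_inf] at he
      refine ⟨e, ?_⟩
      have he1 := mem_inter.1 he
      have he2 := mem_inter.1 he1.1
      have h4 := ed_subset G he2.1
      exact mem_inter.2 ⟨mem_inter.2 ⟨he2.1, mem_inter.2 ⟨h4, he1.2⟩⟩,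
        mem_inter.2 ⟨he2.2, mem_inter.2 ⟨h4, he1.2⟩⟩⟩
  -- double counting
  have hdc : ∑ c : Fin n → Fin r, (S c).card = n.choose 2 * k := by
    have h1 := Finset.sum_card_bipartiteAbove_eq_sum_card_bipartiteBelow
      (s := (univ : Finset (Fin n → Fin r))) (t := s) (fun c e => e ∈ S c)
    unfold bipartiteAbove bipartiteBelow at h1
    have h2 : ∀ c : Fin n → Fin r, s.filter (fun e => e ∈ S c) = S c := by
      intro c
      ext e
      simp only [mem_filter, hS, mem_inter]
      tauto
    simp only [h2] at h1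
    rw [h1, sum_congr rfl hcount, sum_const, smul_eq_mul, hs, card_top]
  have hcardι : (univ : Finset (Fin n → Fin r)).card = r * k := by
    rw [card_univ, Fintype.card_fun, Fintype.card_fin, Fintype.card_fin, hk, ← pow_succ']
    congr 1
    omega
  set g : ℝ := (𝒢.card : ℝ) with hg
  rw [hcard𝒜] at hshear
  have hgpos : 0 < g := by
    rw [hg]; exact_mod_cast card_pos.2 ⟨G0, hG0⟩
  have hprodeq : ∏ c : Fin n → Fin r, ((2 : ℝ) ^ (S c).card / 2)
      = ((2 : ℝ) ^ (n.choose 2) / 2 ^ r) ^ k := by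
    rw [prod_div_distrib, prod_pow_eq_pow_sum, hdc, prod_const, hcardι, pow_mul, pow_mul, div_pow]
  have hterm : ∀ c : Fin n → Fin r,
      (((𝒜.image (fun A => A ∩ S c)).card : ℕ) : ℝ) ≤ (2 : ℝ) ^ (S c).card / 2 := by
    intro c
    have := hproj c
    have h2 : (2 : ℝ) * (((𝒜.image (fun A => A ∩ S c)).card : ℕ) : ℝ) ≤ 2 ^ (S c).card := by
      exact_mod_cast this
    linarith
  -- first bound
  have hle : g ≤ (2 : ℝ) ^ (n.choose 2) / 2 ^ r := by
    have h1 : g ^ k ≤ ((2 : ℝ) ^ (n.choose 2) / 2 ^ r) ^ k := by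
      refine hshear.trans ?_
      rw [← hprodeq]
      exact prod_le_prod (fun c _ => Nat.cast_nonneg _) fun c _ => hterm c
    exact le_of_pow_le_pow_left₀ (by omega) (by positivity) h1
  -- strict bound: the constant colouring
  set c0 : Fin n → Fin r := fun _ => ⟨0, by omega⟩ with hc0
  have hSc0 : (S c0).card = n.choose 2 := by
    rw [← card_top, ← hs]
    congr 1
    rw [hS]
    simp only
    rw [inter_eq_left]
    intro e _
    induction e using Sym2.ind with
    | _ a b => rw [mem_mono]
  have hstrict : (((𝒜.image (fun A => A ∩ S c0)).card : ℕ) : ℝ) < (2 : ℝ) ^ (S c0).card / 2 := by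
    have h1 : (((𝒜.image (fun A => A ∩ S c0)).card : ℕ) : ℝ) ≤ g := by
      rw [hg, ← hcard𝒜]
      exact_mod_cast card_image_le
    have h2 : (2 : ℝ) ^ (n.choose 2) / 2 ^ r < (2 : ℝ) ^ (n.choose 2) / 2 := by
      apply div_lt_div_of_pos_left (by positivity) (by norm_num)
      calc (2 : ℝ) = 2 ^ 1 := by norm_num
        _ < 2 ^ r := pow_lt_pow_right₀ (by norm_num) (by omega)
    rw [hSc0]
    exact lt_of_le_of_lt (h1.trans hle) h2
  have hlt : g ^ k < ((2 : ℝ) ^ (n.choose 2) / 2 ^ r) ^ k := by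
    refine lt_of_le_of_lt hshear ?_
    rw [← hprodeq]
    apply prod_lt_prod
    · intro c _
      have : 0 < (𝒜.image (fun A => A ∩ S c)).card := by
        apply card_pos.2
        exact ⟨_, mem_image.2 ⟨ed G0, mem_image.2 ⟨G0, hG0, rfl⟩, rfl⟩⟩
      exact_mod_cast this
    · exact fun c _ => hterm c
    · exact ⟨c0, mem_univ _, hstrict⟩
  have hfin : g < (2 : ℝ) ^ (n.choose 2) / 2 ^ r := lt_of_pow_lt_pow_left₀ k (by positivity) hlt
  rw [lt_div_iff₀ (by positivity)] at hfin
  have : (2 : ℝ) ^ r * (𝒢.card : ℝ) < 2 ^ (n.choose 2) := by rw [mul_comm]; exact hfin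
  exact_mod_cast this

end graphs

/-- **Main theorem.** For every finite graph `H` with at least two edges and every `n`,
`M_H(n) < 2^(C(n,2) - (χ(H) - 1))`. -/
theorem result : ∀ (V : Type) [Fintype V] (H : SimpleGraph V), H.edgeSet.Nontrivial →
    ∀ n : ℕ, (M H n : ℝ) <
      (2 : ℝ) ^ ((n.choose 2 : ℝ) - ((H.chromaticNumber.toNat : ℝ) - 1)) := by
  classical
  intro V _ H hH n
  -- the chromatic number
  have hcolV := H.colorable_of_fintype
  have hfin : H.chromaticNumber ≠ ⊤ := SimpleGraph.chromaticNumber_ne_top_iff_exists.2 ⟨_, hcolV⟩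
  obtain ⟨χ, hχ⟩ := ENat.ne_top_iff_exists.1 hfin
  have hχN : H.chromaticNumber.toNat = χ := by rw [← hχ]; rfl
  rw [hχN]
  have hnot : ∀ r : ℕ, r < χ → ¬ H.Colorable r := by
    intro r hr hc
    have := hc.chromaticNumber_le
    rw [← hχ] at this
    have : χ ≤ r := by exact_mod_cast this
    omega
  obtain ⟨e1, he1, e2, he2, hne⟩ := hH
  have hχ2 : 2 ≤ χ := by
    by_contra hcon
    push Not at hcon
    have hc : H.Colorable χ := by
      have := H.colorable_of_chromaticNumber_ne_top hfin
      rwa [hχN] at this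
    obtain ⟨col⟩ := hc
    induction e1 using Sym2.ind with
    | _ a b =>
      have hab : H.Adj a b := he1
      apply col.valid hab
      have h1 := (col a).2
      have h2 := (col b).2
      exact Fin.ext (by omega)
  -- every family satisfies the strict bound
  have hfam : ∀ 𝒢 : Finset (SimpleGraph (Fin n)), HIntersecting H 𝒢 → 𝒢.Nonempty →
      2 ^ (χ - 1) * 𝒢.card < 2 ^ (n.choose 2) := by
    intro 𝒢 h𝒢 hne𝒢
    by_cases h2 : χ = 2
    · subst h2
      have h3 := two_inter_card (s := ed (⊤ : SimpleGraph (Fin n))) (𝒜 := 𝒢.image ed) (by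
          intro A hA
          obtain ⟨G, -, rfl⟩ := mem_image.1 hA
          exact mem_powerset.2 (ed_subset G)) (by
          intro A hA B hB
          obtain ⟨G, hG, rfl⟩ := mem_image.1 hA
          obtain ⟨G', hG', rfl⟩ := mem_image.1 hB
          rw [← ed_inf]
          obtain ⟨f⟩ := h𝒢 G hG G' hG'
          have hinj : Function.Injective (Sym2.map f) := Sym2.map.injective f.injective
          have hm : ∀ e ∈ H.edgeSet, Sym2.map f e ∈ ed (G ⊓ G') := by
            intro e he
            rw [mem_ed]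
            induction e using Sym2.ind with
            | _ a b => exact f.toHom.map_adj he
          have : ({Sym2.map f e1, Sym2.map f e2} : Finset (Sym2 (Fin n))) ⊆ ed (G ⊓ G') := by
            intro e he
            rw [mem_insert, mem_singleton] at he
            rcases he with rfl | rfl
            · exact hm e1 he1
            · exact hm e2 he2
          have hc := card_le_card this
          rw [card_pair (fun h => hne (hinj h))] at hc
          exact hc) (hne𝒢.image _)
      rw [card_image_of_injective _ ed_inj, card_top] at h3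
      simpa using h3
    · refine main_bound (r := χ - 1) (by omega) 𝒢 hne𝒢 ?_
      intro G hG G' hG' hc
      obtain ⟨f⟩ := h𝒢 G hG G' hG'
      obtain ⟨col⟩ := hc
      exact hnot (χ - 1) (by omega) ⟨col.comp f.toHom⟩
  -- the supremum is attained
  have hbd : BddAbove {k | ∃ 𝒢 : Finset (SimpleGraph (Fin n)), HIntersecting H 𝒢 ∧ 𝒢.card = k} := by
    refine ⟨2 ^ (n.choose 2), ?_⟩
    rintro k ⟨𝒢, -, rfl⟩
    rw [← card_image_of_injective 𝒢 ed_inj, ← card_top, ← card_powerset]
    apply card_le_card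
    intro A hA
    obtain ⟨G, -, rfl⟩ := mem_image.1 hA
    exact mem_powerset.2 (ed_subset G)
  have hmem : M H n ∈ {k | ∃ 𝒢 : Finset (SimpleGraph (Fin n)), HIntersecting H 𝒢 ∧ 𝒢.card = k} :=
    Nat.sSup_mem ⟨0, ∅, fun G hG => absurd hG (notMem_empty G), rfl⟩ hbd
  obtain ⟨𝒢, h𝒢, hcard⟩ := hmem
  rw [← hcard]
  rcases 𝒢.eq_empty_or_nonempty with rfl | hne𝒢
  · rw [card_empty, Nat.cast_zero]
    positivity
  · have h1 := hfam 𝒢 h𝒢 hne𝒢
    have h2 : (2 : ℝ) ^ (χ - 1) * (𝒢.card : ℝ) < 2 ^ (n.choose 2) := by exact_mod_cast h1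
    have h3 : ((χ : ℝ) - 1) = ((χ - 1 : ℕ) : ℝ) := by
      rw [Nat.cast_sub (by omega)]; simp
    rw [h3, Real.rpow_sub (by norm_num), Real.rpow_natCast, Real.rpow_natCast,
      lt_div_iff₀ (by positivity)]
    rw [mul_comm]
    exact h2

end Pool.Agent.Results.MP_cf191d_co.NeverTight
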